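import Pool.Agent.H23.NVK.MTargets
import Pool.Agent.H31.CN.MAI
import Pool.Agent.H49.CN.INT

/-!
# (MAI) the main term of the mollified second moment, over the abstract semigroup
-/

set_option autoImplicit false

open MeasureTheory Set Filter
open scoped Real

namespace Pool.Agent.H81.NVK

open Pool.Agent.H23.NVK
open Pool.Agent.H31.CN (GR E lin mo al et Mf Fi Mt lin_add_fun poly_bd mom_bd FPol FPol_eval)

section Basic

variable {α : Type} {N : α → ℕ}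

theorem mai_cm_big (P : Polynomial ℝ) (M : ℝ) (R S : Finset α) (h : ¬ (nS N S : ℝ) ≤ M) :
    cm N P M R S = 0 := by
  unfold cm
  rw [if_neg]
  rintro ⟨h1, -⟩
  exact h h1

open Classical in
theorem mai_cm_cop (P : Polynomial ℝ) (M : ℝ) (R S : Finset α) (h : ¬ Disjoint S R) :
    cm N P M R S = 0 := by
  unfold cm
  rw [if_neg]
  rintro ⟨-, h1⟩
  exact h h1

open Classical in
theorem mai_Bd_cop (P : Polynomial ℝ) (M : ℝ) (R d : Finset α) (h : ¬ Disjoint d R) :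
    Bd N P M R d = 0 := by
  unfold Bd
  refine Finset.sum_eq_zero fun S _ => ?_
  rw [mai_cm_cop _ _ _ _ (fun h' => h (Finset.disjoint_of_subset_left
    Finset.subset_union_left h')), zero_smul]

theorem mai_one_le_Ef (q : Finset α) : 1 ≤ Ef N q := by
  unfold Ef
  refine Finset.prod_induction _ (fun x : ℝ => 1 ≤ x)
    (fun a b ha hb => one_le_mul_of_one_le_of_one_le ha hb) le_rfl (fun p _ => ?_)
  have : (0 : ℝ) ≤ 30 / Real.sqrt (N p) := by positivity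
  linarith

open Classical in
theorem mai_Ef_union {a b : Finset α} (h : Disjoint a b) :
    Ef N (a ∪ b) = Ef N a * Ef N b := by
  unfold Ef
  rw [Finset.prod_union h]

theorem mai_Ad_union {a b : Finset α} [DecidableEq α] (h : Ad N b) : Ad N (a ∪ b) :=
  fun p hp => Finset.mem_union_right _ (h p hp)

/-- the error function -/
noncomputable def errf (N : α → ℕ) (V : ℝ → ℝ) (ρ c a₁ a₀ b₂ b₁ b₀ lam : ℝ) (v : ℝ × ℝ) : ℝ :=
  SS N V c (lam - v.1) (lam - v.2) - PPr ρ c a₁ a₀ b₂ b₁ b₀ (lam - v.1) (lam - v.2)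

theorem errf_bd (V : ℝ → ℝ) (ρ c a₁ a₀ b₂ b₁ b₀ C k : ℝ) (hC : 0 < C)
    (h : ∀ Y : ℝ, 0 ≤ Y →
    |S0 N V Y - (ρ ^ 2 * Y ^ 2 / 4 + a₁ * Y + a₀)| ≤ C * Real.exp (-(k * Y)) ∧
    |S1 N V Y - (ρ ^ 2 * Y ^ 3 / 12 + b₂ * Y ^ 2 + b₁ * Y + b₀)| ≤ C * Real.exp (-(k * Y)))
    (lam : ℝ) (v : ℝ × ℝ) (hv : v.2 ≤ lam) :
    |errf N V ρ c a₁ a₀ b₂ b₁ b₀ lam v| ≤ (C * (1 + |c|)) * (1 + |lam| + |v.1| + |v.2|) ^ 2 *
      Real.exp (-(k * (lam - v.2))) := by
  obtain ⟨h0, h1⟩ := h (lam - v.2) (by linarith)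
  set Y := lam - v.2 with hY
  set u := lam - v.1 with hu
  have e1 : errf N V ρ c a₁ a₀ b₂ b₁ b₀ lam v =
      (u + c) * (S0 N V Y - (ρ ^ 2 * Y ^ 2 / 4 + a₁ * Y + a₀)) -
      (S1 N V Y - (ρ ^ 2 * Y ^ 3 / 12 + b₂ * Y ^ 2 + b₁ * Y + b₀)) := by
    unfold errf SS PPr
    ring
  rw [e1]
  set W := 1 + |lam| + |v.1| + |v.2| with hW
  have hW1 : 1 ≤ W := by
    have := abs_nonneg lam
    have := abs_nonneg v.1
    have := abs_nonneg v.2
    linarith
  have hu1 : |u + c| ≤ W - 1 + |c| := by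
    have a1 := abs_add_le u c
    have a2 : |u| ≤ |lam| + |v.1| := abs_sub _ _
    have := abs_nonneg v.2
    linarith
  have hE := Real.exp_pos (-(k * Y))
  calc |(u + c) * (S0 N V Y - (ρ ^ 2 * Y ^ 2 / 4 + a₁ * Y + a₀)) -
      (S1 N V Y - (ρ ^ 2 * Y ^ 3 / 12 + b₂ * Y ^ 2 + b₁ * Y + b₀))|
      ≤ |u + c| * |S0 N V Y - (ρ ^ 2 * Y ^ 2 / 4 + a₁ * Y + a₀)| +
        |S1 N V Y - (ρ ^ 2 * Y ^ 3 / 12 + b₂ * Y ^ 2 + b₁ * Y + b₀)| := by
        rw [← abs_mul]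
        exact abs_sub _ _
    _ ≤ (W - 1 + |c|) * (C * Real.exp (-(k * Y))) + C * Real.exp (-(k * Y)) := by
        have hn : 0 ≤ W - 1 + |c| := by
          have := abs_nonneg c
          linarith
        refine add_le_add (mul_le_mul hu1 h0 (abs_nonneg _) hn) h1
    _ = C * (W + |c|) * Real.exp (-(k * Y)) := by ring
    _ ≤ (C * (1 + |c|)) * W ^ 2 * Real.exp (-(k * Y)) := by
        refine mul_le_mul_of_nonneg_right ?_ hE.le
        rw [mul_assoc]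
        refine mul_le_mul_of_nonneg_left ?_ hC.le
        have := abs_nonneg c
        nlinarith [mul_nonneg this (show (0 : ℝ) ≤ W ^ 2 - 1 by nlinarith),
          show (0 : ℝ) ≤ W * (W - 1) by nlinarith]

end Basic

open Classical in
theorem poly_part (hCNV : T_CNV) (hQUR : T_QUR) (hBAS : T_BAS) (hETM : T_ETM) (hDSU : T_DSU)
    (hDSE : T_DSE) (hHQ : T_HQ) (α : Type) (N : α → ℕ) (ρ δ : ℝ) (hA : AxA N ρ δ)
    (c a₁ a₀ b₂ b₁ b₀ : ℝ) (N₀ : GR)
    (P : Polynomial ℝ) (R : Finset α) (κ L₀ : ℝ) (hP : Polynomial.X ^ 5 ∣ P) (hR : Ad N R) :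
    ∃ C : ℝ, 0 < C ∧ ∀ M lam : ℝ, 2 ≤ M → |lam - κ * Real.log M| ≤ L₀ →
      |lin (fun v => PPr ρ c a₁ a₀ b₂ b₁ b₀ (lam - v.1) (lam - v.2))
        (N₀ * ∑ S₁ ∈ SM N M, ∑ S₂ ∈ SM N M,
          (cm N P M R S₁ * cm N P M R S₂) • ka N S₁ S₂) -
        mo 0 0 N₀ * (Sg N R / ρ) * (1 / 2) * Mt P κ| ≤ C / Real.log M := by
  have hρ := hA.rho
  obtain ⟨CB, hCB, hB⟩ := hBAS α N ρ δ hA P R hP hR
  obtain ⟨CE, hCE, hE⟩ := hETM α N ρ δ hA
  obtain ⟨CH, hCH, hH⟩ := hHQ α N ρ δ hA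
  obtain ⟨CD, hCD, hD⟩ := hDSU α N ρ δ hA R (FPol P κ) hR
  obtain ⟨CS, hCS, hS⟩ := hDSE α N ρ δ hA
  obtain ⟨K0, hK0, hk0⟩ := poly_bd P
  obtain ⟨K1, hK1, hk1⟩ := poly_bd P.derivative
  obtain ⟨K2, hK2, hk2⟩ := poly_bd P.derivative.derivative
  obtain ⟨KN, hKN, hkN⟩ := mom_bd N₀
  have hEN := mai_one_le_Ef (N := N) R
  set CHr : ℝ := CH * Ef N R / ρ ^ 2 with hCHr
  have hCHE : 0 < CHr := by positivity
  set K : ℝ := K0 + K1 + K2 + KN + CB + CE + CHr + |L₀| + 1 with hK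
  have hL := abs_nonneg L₀
  have hKpos : 0 < K := by linarith
  obtain ⟨CQ, hCQ, hQ⟩ := hQUR ρ c a₁ a₀ b₂ b₁ b₀ κ K hρ hKpos
  refine ⟨CQ * CS + |mo 0 0 N₀| * CD / ρ ^ 2 + 1, by positivity, fun M lam hM hlam => ?_⟩
  have hM0 : 0 < M := by linarith
  have hlog : 1 / 2 ≤ Real.log M := by
    have h2 : Real.log 2 ≤ Real.log M := Real.log_le_log (by norm_num) hM
    linarith [Real.log_two_gt_d9]
  have hlpos : 0 < Real.log M := by linarith
  have hcn := hCNV α N ρ δ hA M (cm N P M R)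
    (fun S hS => mai_cm_big P M R S (fun h => hS (hA.mem_SM.2 h)))
  rw [hcn]
  -- restrict to `d` disjoint from `R`
  have hsub : ∑ d ∈ SM N M,
      (∏ p ∈ d, et (N p)) *
        (∑ S ∈ (SM N M).filter (fun S => Disjoint S d),
          cm N P M R (d ∪ S) • ∏ p ∈ S, al (N p)) ^ 2 =
      ∑ d ∈ (SM N M).filter (fun d => Disjoint d R),
        (∏ p ∈ d, et (N p)) * Bd N P M R d ^ 2 := by
    symm
    refine Finset.sum_subset (Finset.filter_subset _ _) (fun d hd hd' => ?_)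
    have h1 : ¬ Disjoint d R := fun h => hd' (Finset.mem_filter.2 ⟨hd, h⟩)
    rw [mai_Bd_cop P M R d h1]
    simp
  rw [hsub, Finset.mul_sum, map_sum]
  set s := (SM N M).filter (fun d => Disjoint d R) with hs
  -- each term
  have hterm : ∀ d ∈ s, |lin (fun v => PPr ρ c a₁ a₀ b₂ b₁ b₀ (lam - v.1) (lam - v.2))
        (N₀ * ((∏ p ∈ d, et (N p)) * Bd N P M R d ^ 2)) -
      mo 0 0 N₀ * gd N d * (Hq N (d ∪ R) ^ 2 / ρ ^ 2) * Real.log M ^ (-1 : ℤ) *
        (FPol P κ).eval (Real.log (M / nS N d) / Real.log M)| ≤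
      CQ * (Ef N d ^ 2) ^ 2 / nS N d * Real.log M ^ (-2 : ℤ) := by
    intro d hd
    rw [hs, Finset.mem_filter, hA.mem_SM] at hd
    obtain ⟨hdM', hdR⟩ := hd
    have hd1 := hA.one_le_nS d
    have hd0 : (0 : ℝ) < nS N d := hA.nS_pos d
    have hEd := mai_one_le_Ef (N := N) d
    have ht0 : 0 ≤ Real.log (M / nS N d) / Real.log M :=
      div_nonneg (Real.log_nonneg (by rw [le_div_iff₀ hd0]; linarith)) hlpos.le
    have ht1 : Real.log (M / nS N d) / Real.log M ≤ 1 := by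
      rw [div_le_one hlpos]
      refine Real.log_le_log (by positivity) (div_le_self hM0.le (by exact_mod_cast hd1))
    rw [FPol_eval]
    obtain ⟨hHp, hHb, -⟩ := hH (d ∪ R) (mai_Ad_union hR)
    have hq := hQ N₀ (∏ p ∈ d, et (N p)) (Bd N P M R d) (Real.log M) lam (gd N d) (nS N d)
      (Hq N (d ∪ R) / ρ ^ 2) (Ef N d ^ 2) ((-1) ^ d.card)
      (P.eval (Real.log (M / nS N d) / Real.log M))
      (P.derivative.eval (Real.log (M / nS N d) / Real.log M))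
      (P.derivative.derivative.eval (Real.log (M / nS N d) / Real.log M)) hlog ?_
      (by exact_mod_cast hd1) ?_ ?_ ?_ ?_ ?_ ?_ ?_ (hE d).1 ?_
    · refine (le_of_eq ?_).trans hq
      congr 1
      field_simp
    · exact hlam.trans ((le_abs_self L₀).trans (by linarith))
    · nlinarith
    · rw [← pow_mul, mul_comm, pow_mul, neg_one_sq, one_pow]
    · rw [abs_of_pos (by positivity)]
      calc Hq N (d ∪ R) / ρ ^ 2 ≤ CH * Ef N (d ∪ R) / ρ ^ 2 :=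
            div_le_div_of_nonneg_right hHb (by positivity)
        _ = CHr * Ef N d := by rw [mai_Ef_union hdR, hCHr]; ring
        _ ≤ K * Ef N d ^ 2 := by
          refine mul_le_mul (by linarith) (by nlinarith) (by linarith) hKpos.le
    · exact (hk0 _ ht0 ht1).trans (by linarith)
    · exact (hk1 _ ht0 ht1).trans (by linarith)
    · exact (hk2 _ ht0 ht1).trans (by linarith)
    · intro i j hij
      refine ⟨(hkN i j hij).trans (by linarith), ((hE d).2 i j hij).trans ?_⟩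
      exact div_le_div_of_nonneg_right (by linarith) hd0.le
    · intro i j hij
      have h := hB M d i j hM hdM' hdR hij
      unfold Mf at h
      refine h.trans ?_
      refine mul_le_mul_of_nonneg_right ?_ (by positivity)
      exact mul_le_mul_of_nonneg_right (by linarith) (by positivity)
  -- the sum of the errors
  have herr : |∑ d ∈ s, lin (fun v => PPr ρ c a₁ a₀ b₂ b₁ b₀ (lam - v.1) (lam - v.2))
        (N₀ * ((∏ p ∈ d, et (N p)) * Bd N P M R d ^ 2)) -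
      mo 0 0 N₀ / ρ ^ 2 * Real.log M ^ (-1 : ℤ) * ∑ d ∈ s, gd N d * Hq N (d ∪ R) ^ 2 *
        (FPol P κ).eval (Real.log (M / nS N d) / Real.log M)| ≤ CQ * CS / Real.log M := by
    rw [Finset.mul_sum, ← Finset.sum_sub_distrib]
    refine (Finset.abs_sum_le_sum_abs _ _).trans ?_
    calc ∑ d ∈ s, |lin (fun v => PPr ρ c a₁ a₀ b₂ b₁ b₀ (lam - v.1) (lam - v.2))
          (N₀ * ((∏ p ∈ d, et (N p)) * Bd N P M R d ^ 2)) -
          mo 0 0 N₀ / ρ ^ 2 * Real.log M ^ (-1 : ℤ) * (gd N d * Hq N (d ∪ R) ^ 2 *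
        (FPol P κ).eval (Real.log (M / nS N d) / Real.log M))|
        ≤ ∑ d ∈ s, CQ * (Ef N d ^ 2) ^ 2 / nS N d * Real.log M ^ (-2 : ℤ) := by
          refine Finset.sum_le_sum fun d hd => ?_
          have h := hterm d hd
          refine (le_of_eq ?_).trans h
          congr 1
          ring
      _ ≤ ∑ d ∈ SM N M, CQ * Real.log M ^ (-2 : ℤ) * (Ef N d ^ 8 / nS N d) := by
          refine (Finset.sum_le_sum (g := fun d =>
            CQ * Real.log M ^ (-2 : ℤ) * (Ef N d ^ 8 / (nS N d : ℝ))) fun d _ => ?_).trans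
            (Finset.sum_le_sum_of_subset_of_nonneg (Finset.filter_subset _ _)
              fun d _ _ => ?_)
          · have hEd := mai_one_le_Ef (N := N) d
            have h48 : (Ef N d ^ 2) ^ 2 ≤ Ef N d ^ 8 := by
              rw [← pow_mul]
              exact pow_le_pow_right₀ hEd (by norm_num)
            have : CQ * (Ef N d ^ 2) ^ 2 / (nS N d : ℝ) * Real.log M ^ (-2 : ℤ) =
                CQ * Real.log M ^ (-2 : ℤ) * ((Ef N d ^ 2) ^ 2 / nS N d) := by ring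
            rw [this]
            refine mul_le_mul_of_nonneg_left ?_ (by positivity)
            exact div_le_div_of_nonneg_right h48 (by positivity)
          · have hEd := mai_one_le_Ef (N := N) d
            positivity
      _ = CQ * Real.log M ^ (-2 : ℤ) * ∑ d ∈ SM N M, Ef N d ^ 8 / nS N d := by
          rw [Finset.mul_sum]
      _ ≤ CQ * Real.log M ^ (-2 : ℤ) * (CS * Real.log M) :=
          mul_le_mul_of_nonneg_left (hS M hM) (by positivity)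
      _ = CQ * CS / Real.log M := by
          rw [zpow_neg, show ((2 : ℤ)) = ((2 : ℕ) : ℤ) from rfl, zpow_natCast]
          field_simp
  -- the main term
  have hmain := hD M hM
  rw [← hs] at hmain
  have hX2 : Polynomial.X ^ 2 ∣ P := (pow_dvd_pow _ (by norm_num)).trans hP
  have hint : ∫ t in (0 : ℝ)..1, (FPol P κ).eval t = 1 / 2 * Mt P κ := by
    simp_rw [FPol_eval]
    rw [Pool.Agent.H49.CN.pf_INT P κ hX2]
    rfl
  rw [hint] at hmain
  set T1 := ∑ d ∈ s, lin (fun v => PPr ρ c a₁ a₀ b₂ b₁ b₀ (lam - v.1) (lam - v.2))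
        (N₀ * ((∏ p ∈ d, et (N p)) * Bd N P M R d ^ 2)) with hT1
  set T2 := ∑ d ∈ s, gd N d * Hq N (d ∪ R) ^ 2 *
        (FPol P κ).eval (Real.log (M / nS N d) / Real.log M) with hT2
  have hl1 : Real.log M ^ (-1 : ℤ) = (Real.log M)⁻¹ := zpow_neg_one _
  rw [hl1] at herr
  have h5 : |mo 0 0 N₀ / ρ ^ 2 * (Real.log M)⁻¹ * T2 -
      mo 0 0 N₀ * (Sg N R / ρ) * (1 / 2) * Mt P κ| ≤
      |mo 0 0 N₀| * CD / ρ ^ 2 / Real.log M := by
    have e : mo 0 0 N₀ / ρ ^ 2 * (Real.log M)⁻¹ * T2 -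
        mo 0 0 N₀ * (Sg N R / ρ) * (1 / 2) * Mt P κ =
        mo 0 0 N₀ * ((ρ ^ 2)⁻¹ * (Real.log M)⁻¹) *
          (T2 - Sg N R * ρ * Real.log M * (1 / 2 * Mt P κ)) := by
      field_simp
    have hp : 0 < (ρ ^ 2)⁻¹ * (Real.log M)⁻¹ := by positivity
    rw [e, abs_mul, abs_mul, abs_of_pos hp]
    calc |mo 0 0 N₀| * ((ρ ^ 2)⁻¹ * (Real.log M)⁻¹) *
          |T2 - Sg N R * ρ * Real.log M * (1 / 2 * Mt P κ)|
        ≤ |mo 0 0 N₀| * ((ρ ^ 2)⁻¹ * (Real.log M)⁻¹) * CD :=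
          mul_le_mul_of_nonneg_left hmain (by positivity)
      _ = _ := by
        rw [div_eq_mul_inv, div_eq_mul_inv]
        ring
  calc |T1 - mo 0 0 N₀ * (Sg N R / ρ) * (1 / 2) * Mt P κ|
      ≤ |T1 - mo 0 0 N₀ / ρ ^ 2 * (Real.log M)⁻¹ * T2| +
        |mo 0 0 N₀ / ρ ^ 2 * (Real.log M)⁻¹ * T2 -
          mo 0 0 N₀ * (Sg N R / ρ) * (1 / 2) * Mt P κ| :=
        abs_sub_le _ _ _
    _ ≤ CQ * CS / Real.log M + |mo 0 0 N₀| * CD / ρ ^ 2 / Real.log M := add_le_add herr h5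
    _ ≤ (CQ * CS + |mo 0 0 N₀| * CD / ρ ^ 2 + 1) / Real.log M := by
        rw [← add_div]
        exact div_le_div_of_nonneg_right (by linarith) hlpos.le

theorem pf_MAI (hSSA : T_SSA) (hCNV : T_CNV) (hQUR : T_QUR) (hBAS : T_BAS) (hETM : T_ETM)
    (hDSU : T_DSU) (hDSE : T_DSE) (hPER : T_PER) (hHQ : T_HQ) : T_MAI := by
  intro α N ρ δ V hA hV c N₀ P R θ L₀ ε hP hR hθ hθ' hε
  obtain ⟨-, -, a₁, a₀, b₂, b₁, b₀, C, k, hC, hk, hS⟩ := hSSA α N ρ δ V hA hV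
  obtain ⟨X₁, hX₁⟩ := hPER α N ρ δ hA N₀ P R θ L₀ (C * (1 + |c|)) k (ε / 2)
    (fun lam v => errf N V ρ c a₁ a₀ b₂ b₁ b₀ lam v) hθ hθ' hk (by positivity)
    (fun lam v hv => errf_bd V ρ c a₁ a₀ b₂ b₁ b₀ C k hC hS lam v hv)
  obtain ⟨C', hC', hmain⟩ := poly_part hCNV hQUR hBAS hETM hDSU hDSE hHQ α N ρ δ hA
    c a₁ a₀ b₂ b₁ b₀ N₀ P R (1 / (2 * θ)) L₀ hP hR
  set Y : ℝ := max (Real.log 2) (2 * C' / ε) / θ with hY
  refine ⟨max X₁ (Real.exp Y), fun X lam hX hlam => ?_⟩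
  have hX1 : X₁ ≤ X := (le_max_left _ _).trans hX
  have hX2 : Real.exp Y ≤ X := (le_max_right _ _).trans hX
  have hX0 : 0 < X := (Real.exp_pos _).trans_le hX2
  have hlX : Y ≤ Real.log X := (Real.le_log_iff_exp_le hX0).2 hX2
  have hlM : Real.log (X ^ θ) = θ * Real.log X := Real.log_rpow hX0 θ
  have hlM' : max (Real.log 2) (2 * C' / ε) ≤ Real.log (X ^ θ) := by
    rw [hlM]
    rw [hY, div_le_iff₀ hθ] at hlX
    linarith
  have hM0 : 0 < X ^ θ := Real.rpow_pos_of_pos hX0 θ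
  have hM2 : 2 ≤ X ^ θ := by
    have h := (le_max_left _ _).trans hlM'
    exact (Real.log_le_log_iff (by norm_num) hM0).1 h
  have hM3 : 2 * C' / ε ≤ Real.log (X ^ θ) := (le_max_right _ _).trans hlM'
  have hlpos : 0 < Real.log (X ^ θ) := (Real.log_pos (by norm_num)).trans_le
    ((le_max_left _ _).trans hlM')
  have h1 := hX₁ X lam hX1 hlam
  have h2 := hmain (X ^ θ) lam hM2 (by
    rw [hlM]
    have : 1 / (2 * θ) * (θ * Real.log X) = 1 / 2 * Real.log X := by field_simp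
    rw [this]
    exact hlam)
  have h3 : C' / Real.log (X ^ θ) ≤ ε / 2 := by
    rw [div_le_iff₀ hε] at hM3
    rw [div_le_iff₀ hlpos]
    linarith
  have h4 : ∀ r : GR, Ph N V c lam r =
      lin (fun v => PPr ρ c a₁ a₀ b₂ b₁ b₀ (lam - v.1) (lam - v.2)) r +
      lin (fun v => errf N V ρ c a₁ a₀ b₂ b₁ b₀ lam v) r := by
    intro r
    rw [← lin_add_fun]
    unfold Ph
    congr 1
    congr 1
    funext v
    unfold errf
    ring
  rw [h4]
  set r := N₀ * ∑ S₁ ∈ SM N (X ^ θ), ∑ S₂ ∈ SM N (X ^ θ),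
        (cm N P (X ^ θ) R S₁ * cm N P (X ^ θ) R S₂) • ka N S₁ S₂ with hr
  have e : lin (fun v => PPr ρ c a₁ a₀ b₂ b₁ b₀ (lam - v.1) (lam - v.2)) r +
      lin (fun v => errf N V ρ c a₁ a₀ b₂ b₁ b₀ lam v) r -
      mo 0 0 N₀ * (Sg N R / ρ) * (1 / 2) * Mt P (1 / (2 * θ)) =
      (lin (fun v => PPr ρ c a₁ a₀ b₂ b₁ b₀ (lam - v.1) (lam - v.2)) r -
      mo 0 0 N₀ * (Sg N R / ρ) * (1 / 2) * Mt P (1 / (2 * θ))) +
      lin (fun v => errf N V ρ c a₁ a₀ b₂ b₁ b₀ lam v) r := by ring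
  rw [e]
  refine (abs_add_le _ _).trans ?_
  linarith

end Pool.Agent.H81.NVK
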