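import Pool.Agent.H91.NV.LTargets
import Pool.Agent.H61.NVK.TargetsE1

/-!
# (ZFP) the central value is invariant under translations
-/

set_option autoImplicit false

open MeasureTheory Set Filter NumberField NumberField.InfinitePlace
open scoped Real

namespace Pool.Agent.H81.NVK

open Pool.Agent.H65.CM4 Pool.Agent.H61.NVK Pool.Agent.H89.NV Pool.Agent.H91.NV

variable (k : Type) [Field k] [NumberField k] [IsTotallyReal k]

theorem pf_ZFP (hZPR : Pool.Agent.H61.NVK.T_ZPR) : T_ZFP k := by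
  intro A f D b j hf hA hD hj
  have h := hZPR k ⟨A, mem_nonZeroDivisors_of_ne_zero hA⟩ ⟨f, mem_nonZeroDivisors_of_ne_zero hf⟩
    (Pool.Agent.H89.NV.em b) (Pool.Agent.H89.NV.em D) j 1 (fun v => hD v) hj
  have e1 : (fun v : Pl k => rv v (((1 : (𝓞 k)ˣ) : 𝓞 k) : k) * Pool.Agent.H89.NV.em b v + 2 * rv v (j : k)) =
      Pool.Agent.H89.NV.em (b + 2 * j) := by
    funext v
    unfold Pool.Agent.H89.NV.em
    have e3 : ((b + 2 * j : 𝓞 k) : k) = (b : k) + 2 * (j : k) := by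
      push_cast
      rfl
    rw [e3, map_add, map_mul, map_ofNat]
    have e4 : ((((1 : (𝓞 k)ˣ) : 𝓞 k) : k)) = 1 := rfl
    rw [e4, map_one, one_mul]
  have e2 : (fun v : Pl k => rv v (((1 : (𝓞 k)ˣ) : 𝓞 k) : k) ^ 2 * Pool.Agent.H89.NV.em D v) = Pool.Agent.H89.NV.em D := by
    funext v
    have e4 : ((((1 : (𝓞 k)ˣ) : 𝓞 k) : k)) = 1 := rfl
    rw [e4, map_one, one_pow, one_mul]
  rw [e1, e2] at h
  exact h

end Pool.Agent.H81.NVK
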